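import Pool.Agent.MP_0c16b3_nt.L.Spec

/-! Averaging over the windows. -/

namespace Pool.Agent.MP_0c16b3_nt.L

open Finset

namespace Avg

theorem harm (s : Finset ℕ) (K : ℕ) (h : s ⊆ Icc 1 K) :
    ∑ n ∈ s, ((n : ℝ))⁻¹ ≤ 1 + Real.log K := by
  have h1 := harmonic_le_one_add_log K
  rw [harmonic_eq_sum_Icc] at h1
  push_cast at h1
  exact (sum_le_sum_of_subset_of_nonneg h fun n _ _ => by positivity).trans h1

/-- the number of points of `A` in one window -/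
def a (D : ℕ) (A : Finset ℕ) (c n : ℕ) : ℕ := #{s ∈ range D | s < c ∧ c * n + s ∈ A}

theorem a_le (D : ℕ) (A : Finset ℕ) (c n : ℕ) : a D A c n ≤ c :=
  (card_le_card fun s hs => mem_range.2 (mem_filter.1 hs).2.1).trans (card_range c).le

theorem shape_card (M D n : ℕ) (A : Finset ℕ) :
    #(shape M D n A) = ∑ e ∈ Icc 1 M, a D A (D / e) n := by
  simp only [shape, a, card_filter, sum_product]

theorem mid (D c N : ℕ) (A : Finset ℕ) (hc : 0 < c) (hD : c ≤ D) :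
    (c : ℝ) * ∑ k ∈ A with c ≤ k ∧ k < c * (N + 1), ((k : ℝ))⁻¹ ≤
      ∑ n ∈ Icc 1 N, (a D A c n : ℝ) * ((n : ℝ))⁻¹ := by
  have hm : ∀ k ∈ A.filter (fun k => c ≤ k ∧ k < c * (N + 1)), k / c ∈ Icc 1 N := fun k hk => by
    obtain ⟨-, h1, h2⟩ := mem_filter.1 hk
    exact mem_Icc.2 ⟨Nat.div_pos h1 hc, Nat.lt_succ_iff.1 (Nat.div_lt_of_lt_mul h2)⟩
  rw [mul_sum, ← sum_fiberwise_of_maps_to hm]
  refine sum_le_sum fun n hn => ?_
  have n0 : (0 : ℝ) < n := by exact_mod_cast (mem_Icc.1 hn).1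
  have c0 : (0 : ℝ) < c := by exact_mod_cast hc
  refine (sum_le_card_nsmul _ _ ((n : ℝ))⁻¹ fun k hk => ?_).trans ?_
  · have h : c * n ≤ k := (mem_filter.1 hk).2 ▸ Nat.mul_div_le k c
    have h' : (c : ℝ) * n ≤ k := by exact_mod_cast h
    calc (c : ℝ) * ((k : ℝ))⁻¹ ≤ c * ((c : ℝ) * n)⁻¹ := by gcongr
      _ = ((n : ℝ))⁻¹ := by field_simp
  · rw [nsmul_eq_mul]
    refine mul_le_mul_of_nonneg_right (Nat.cast_le.2 ?_) (by positivity)
    refine card_le_card_of_injOn (fun k => k % c) (fun k hk => ?_) fun k hk k' hk' e => ?_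
    · obtain ⟨h1, h2⟩ := mem_filter.1 (mem_coe.1 hk)
      have := Nat.mod_lt k hc
      refine mem_coe.2 (mem_filter.2 ⟨mem_range.2 (this.trans_le hD), this, ?_⟩)
      rw [← h2, Nat.div_add_mod]
      exact (mem_filter.1 h1).1
    · have e' : k % c = k' % c := e
      rw [← Nat.div_add_mod k c, ← Nat.div_add_mod k' c, e', (mem_filter.1 (mem_coe.1 hk)).2,
        (mem_filter.1 (mem_coe.1 hk')).2]

theorem rest (D c K : ℕ) (A : Finset ℕ) (hc : 0 < c) (hD : c ≤ D) (hK : D ≤ K)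
    (hA : A ⊆ Ico 1 K) :
    ∑ k ∈ A, ((k : ℝ))⁻¹ ≤
      ∑ k ∈ A with c ≤ k ∧ k < c * (K / D - 1 + 1), ((k : ℝ))⁻¹ + 3 * D := by
  have D0 : 0 < D := hc.trans_le hD
  have P1 : 1 ≤ K / D := Nat.div_pos hK D0
  rw [Nat.sub_add_cancel P1]
  have P0 : (0 : ℝ) < (K / D : ℕ) := by exact_mod_cast P1
  have h1 : ∑ k ∈ A with k < c, ((k : ℝ))⁻¹ ≤ D := by
    refine (sum_le_card_nsmul _ _ 1 fun k _ => Nat.cast_inv_le_one k).trans ?_
    rw [nsmul_eq_mul, mul_one]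
    exact Nat.cast_le.2 (((card_le_card fun k hk => mem_range.2 (mem_filter.1 hk).2).trans
      (card_range c).le).trans hD)
  have h2 : ∑ k ∈ A with K / D ≤ k, ((k : ℝ))⁻¹ ≤ 2 * D := by
    refine (sum_le_card_nsmul _ _ (((K / D : ℕ) : ℝ))⁻¹ fun k hk => ?_).trans ?_
    · exact inv_anti₀ P0 (Nat.cast_le.2 (mem_filter.1 hk).2)
    · rw [nsmul_eq_mul, mul_inv_le_iff₀ P0]
      have h3 : #{k ∈ A | K / D ≤ k} ≤ K :=
        (card_le_card fun k hk => mem_range.2 (mem_Ico.1 (hA (mem_filter.1 hk).1)).2).trans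
          (card_range K).le
      have h4 : K ≤ 2 * D * (K / D) := by
        have := Nat.lt_mul_div_succ K D0
        nlinarith
      exact_mod_cast h3.trans h4
  have h3 : ∑ k ∈ A, ((k : ℝ))⁻¹ ≤ ∑ k ∈ A with c ≤ k ∧ k < c * (K / D), ((k : ℝ))⁻¹ +
      ∑ k ∈ A with k < c, ((k : ℝ))⁻¹ + ∑ k ∈ A with K / D ≤ k, ((k : ℝ))⁻¹ := by
    simp only [sum_filter, ← sum_add_distrib]
    refine sum_le_sum fun k _ => ?_
    have k0 : (0 : ℝ) ≤ ((k : ℝ))⁻¹ := by positivity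
    have : K / D ≤ c * (K / D) := Nat.le_mul_of_pos_left _ hc
    split_ifs <;> first | linarith | omega
  linarith

end Avg

open Avg in
theorem avg (hC : ChainS) : AvgS := by
  intro M D K ns A D0 hdiv hK hns hA
  set N := K / D - 1 with hN
  have P1 : 1 ≤ K / D := Nat.div_pos hK D0
  have hle : ∀ n, n ≤ N → D * (n + 1) ≤ K := fun n h =>
    (Nat.mul_le_mul_left D (by omega)).trans (Nat.mul_div_le K D)
  set G := (Icc 1 N).filter (fun n => ns ≤ n ∧ 2 * D ≤ #(shape M D n A)) with hG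
  rcases hC (2 * D) M G (by omega) (fun x hx => (mem_Icc.1 (mem_filter.1 hx).1).1) with
    ⟨n, h1, h2⟩ | h
  · exact Or.inl ⟨n, fun j => ⟨(mem_filter.1 (h1 j)).2.1,
      hle _ (mem_Icc.1 (mem_filter.1 (h1 j)).1).2, (mem_filter.1 (h1 j)).2.2⟩, h2⟩
  right
  set H := ∑ e ∈ Icc 1 M, ((e : ℝ))⁻¹ with hH
  set S := ∑ k ∈ A, ((k : ℝ))⁻¹ with hS
  have H0 : 0 ≤ H := sum_nonneg fun _ _ => by positivity
  have Dp : (0 : ℝ) < D := by exact_mod_cast D0
  have hsum : ∑ e ∈ Icc 1 M, ((D / e : ℕ) : ℝ) = D * H := by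
    rw [hH, mul_sum]
    refine sum_congr rfl fun e he => ?_
    have := mem_Icc.1 he
    rw [Nat.cast_div (hdiv e this.1 this.2) (by exact_mod_cast (by omega : e ≠ 0)),
      div_eq_mul_inv]
  have hw : ∀ n, (#(shape M D n A) : ℝ) ≤ D * H := fun n => by
    rw [← hsum, shape_card]
    push_cast
    exact sum_le_sum fun e _ => Nat.cast_le.2 (a_le _ _ _ _)
  have up : ∑ n ∈ Icc 1 N, (#(shape M D n A) : ℝ) * ((n : ℝ))⁻¹ ≤
      2 * D * ∑ n ∈ Icc 1 N, ((n : ℝ))⁻¹ + D * H * (∑ n ∈ Icc 1 N with n < ns, ((n : ℝ))⁻¹ +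
        ∑ n ∈ G, ((n : ℝ))⁻¹) := by
    rw [hG]
    simp only [sum_filter, mul_sum, ← sum_add_distrib]
    refine sum_le_sum fun n _ => ?_
    have n0 : (0 : ℝ) ≤ ((n : ℝ))⁻¹ := by positivity
    have q1 := mul_le_mul_of_nonneg_right (hw n) n0
    have q2 : 0 ≤ 2 * (D : ℝ) * ((n : ℝ))⁻¹ := by positivity
    have q3 : 0 ≤ D * H * ((n : ℝ))⁻¹ := by positivity
    split_ifs with c1 c2 c2
    · linarith
    · linarith
    · linarith
    · have : #(shape M D n A) ≤ 2 * D := by omega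
      have q4 : (#(shape M D n A) : ℝ) ≤ 2 * D := by exact_mod_cast this
      have := mul_le_mul_of_nonneg_right q4 n0
      linarith
  have low : D * H * (S - 3 * D) ≤ ∑ n ∈ Icc 1 N, (#(shape M D n A) : ℝ) * ((n : ℝ))⁻¹ := by
    simp only [shape_card]
    push_cast
    simp only [sum_mul]
    rw [sum_comm, ← hsum, sum_mul]
    refine sum_le_sum fun e he => ?_
    have h1 := mem_Icc.1 he
    have c0 : 0 < D / e := Nat.div_pos (Nat.le_of_dvd D0 (hdiv e h1.1 h1.2)) h1.1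
    have c1 : D / e ≤ D := Nat.div_le_self _ _
    refine le_trans (mul_le_mul_of_nonneg_left ?_ (Nat.cast_nonneg _)) (mid D (D / e) N A c0 c1)
    have := rest D (D / e) K A c0 c1 hK hA
    linarith
  have g1 := harm (Icc 1 N) K (Icc_subset_Icc_right (by have := Nat.div_le_self K D; omega))
  have g2 := harm ((Icc 1 N).filter (· < ns)) ns fun n hn =>
    mem_Icc.2 ⟨(mem_Icc.1 (mem_filter.1 hn).1).1, (mem_filter.1 hn).2.le⟩
  push_cast at h
  have g3 : D * H * (S - 3 * D) ≤ 2 * D * (1 + Real.log K) +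
      D * H * ((1 + Real.log ns) + M * (2 * D)) :=
    low.trans (up.trans (by gcongr))
  refine le_of_mul_le_mul_left ?_ Dp
  linarith

end Pool.Agent.MP_0c16b3_nt.L
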