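import Pool.Agent.MP_0c16b3_nt.L.Spec

/-! The integer certificate. -/

namespace Pool.Agent.MP_0c16b3_nt.L

open Finset Filter

namespace Cert

theorem exists_M (a : ℝ) : ∃ M : ℕ, 0 < M ∧ a ≤ ∑ e ∈ Icc 1 M, ((e : ℝ))⁻¹ := by
  obtain ⟨M, hM, h0⟩ := ((Real.tendsto_sum_range_one_div_nat_succ_atTop.eventually_ge_atTop
    a).and (eventually_gt_atTop 0)).exists
  refine ⟨M, h0, hM.trans (le_of_eq ?_)⟩
  rw [← Finset.Ico_add_one_right_eq_Icc, sum_Ico_eq_sum_range]
  simp only [Nat.add_sub_cancel]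
  refine sum_congr rfl (fun i _ => ?_)
  push_cast
  rw [one_div, add_comm]

theorem small (a b c δ : ℝ) (ha : 0 ≤ a) (hb : 0 ≤ b) (hδ : 0 < δ) : ∃ K0 : ℕ, ∀ K : ℕ, K0 ≤ K →
    Real.log (a + b * Real.log K + 1) + c ≤ δ * Real.log K := by
  have h1 : Tendsto (fun K : ℕ => Real.log K) atTop atTop :=
    Real.tendsto_log_atTop.comp tendsto_natCast_atTop_atTop
  have h2 := (Real.isLittleO_log_id_atTop.bound (c := δ / 2) (by positivity))
  have h3 := h1.eventually (h2.and ((eventually_ge_atTop 1).and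
    (eventually_ge_atTop ((Real.log (a + b + 1) + c) / (δ / 2)))))
  obtain ⟨K0, hK0⟩ := eventually_atTop.1 h3
  refine ⟨K0, fun K hK => ?_⟩
  obtain ⟨k1, k2, k3⟩ := hK0 K hK
  obtain ⟨L, hL⟩ : ∃ L : ℝ, L = Real.log K := ⟨_, rfl⟩
  rw [← hL] at k1 k2 k3 ⊢
  have k4 : Real.log (a + b * L + 1) ≤ Real.log (a + b + 1) + Real.log L := by
    rw [← Real.log_mul (by positivity) (by positivity)]
    exact Real.log_le_log (by positivity) (by nlinarith)
  rw [div_le_iff₀ (by positivity)] at k3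
  simp only [Real.norm_eq_abs, id] at k1
  rw [abs_of_nonneg (by positivity : 0 ≤ L)] at k1
  have := le_abs_self (Real.log L)
  nlinarith

end Cert

theorem cert (hL : LinS) (hR : RelS) (hI : IntS) (hS : SiegS) (hN : NonvS) (hA : AvgS) :
    CertS := by
  intro ε hε
  obtain ⟨M, hM0, hM⟩ := Cert.exists_M (8 / ε)
  obtain ⟨D, hD⟩ : ∃ D : ℕ, D = M.factorial := ⟨_, rfl⟩
  have hD0 : 0 < D := hD ▸ M.factorial_pos
  have hdv : ∀ e, 1 ≤ e → e ≤ M → e ∣ D := fun e h1 h2 => hD ▸ Nat.dvd_factorial h1 h2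
  obtain ⟨B, hB⟩ := hL M D hM0 (hD ▸ Nat.self_le_factorial M)
  obtain ⟨C, hC⟩ := hS M D B hM0 hdv
  obtain ⟨C', n1, hnv⟩ := hN M D B C hD0 hdv
  obtain ⟨K1, hK1⟩ := Cert.small (n1 + 1) C' (1 + 2 * D * M + 3 * D) (ε / 2) (by positivity)
    (by positivity) (by positivity)
  refine ⟨K1 + D + 3, fun K hK A hAK hsum => ?_⟩
  have hlog : 1 ≤ Real.log K := by
    rw [Real.le_log_iff_exp_le (by exact_mod_cast (by omega : 0 < K))]
    have h3 : (3 : ℝ) ≤ K := by exact_mod_cast (by omega : 3 ≤ K)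
    have := Real.exp_one_lt_d9
    linarith
  obtain ⟨ns, hns⟩ : ∃ ns : ℕ, ns = n1 + 1 + ⌈(C' : ℝ) * Real.log K⌉₊ := ⟨_, rfl⟩
  have hns1 : (C' : ℝ) * Real.log K ≤ ns := by
    have := Nat.le_ceil ((C' : ℝ) * Real.log K)
    rw [hns]
    push_cast
    have : (0 : ℝ) ≤ n1 := Nat.cast_nonneg _
    linarith
  have hns2 : (ns : ℝ) ≤ n1 + 1 + C' * Real.log K + 1 := by
    have := Nat.ceil_lt_add_one (by positivity : 0 ≤ (C' : ℝ) * Real.log K)
    rw [hns]
    push_cast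
    linarith
  rcases hA M D K ns A hD0 hdv (by omega) (by omega) hAK with ⟨n, hn, hsep⟩ | hbad
  swap
  · exfalso
    obtain ⟨H, hH⟩ : ∃ H : ℝ, H = ∑ e ∈ Icc 1 M, ((e : ℝ))⁻¹ := ⟨_, rfl⟩
    rw [← hH] at hM hbad
    have hH0 : 0 < H := lt_of_lt_of_le (by positivity) hM
    rw [div_le_iff₀ hε] at hM
    have h1 := hK1 K (by omega)
    have h2 : Real.log ns ≤ Real.log (n1 + 1 + C' * Real.log K + 1) :=
      Real.log_le_log (by exact_mod_cast (by omega : 0 < ns)) hns2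
    have h3 : Real.log ns + 1 + 2 * D * M + 3 * D ≤ ε / 2 * Real.log K := by linarith
    have h4 := mul_le_mul_of_nonneg_left h3 hH0.le
    have h5 := mul_lt_mul_of_pos_left hsum hH0
    nlinarith
  have hsh : ∀ j, ∀ x ∈ shape M D (n j) A, 1 ≤ x.1 ∧ x.1 ≤ M ∧ x.2 < D / x.1 := by
    intro j x hx
    simp only [shape, mem_filter, mem_product, mem_Icc] at hx
    exact ⟨hx.1.1.1, hx.1.1.2, hx.2.1⟩
  choose ν hν1 hν2 hν3 hν4 hν5 using fun j => hB _ (hsh j) (hn j).2.2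
  obtain ⟨lam, hl0, hlb, hlz⟩ := hC K n (fun j => tail D (ν j)) (by omega)
    (fun j => (hn j).2.1) hν4
  have hX := hnv K n (fun j => tail D (ν j)) lam (by omega) (fun j => (hn j).2.1)
    (fun j => by have := (hn j).1; omega)
    (fun j => hns1.trans (by exact_mod_cast (hn j).1)) hsep hν4 hν5 hl0 hlb
  choose Ni Yi hint using fun j => hI K M D (n j) (tail D (ν j)) (hn j).2.1
  have hQ : ∀ i : ℕ, 0 < i → i ≤ K → (i : ℚ) ≠ 0 := fun i h0 _ => by exact_mod_cast h0.ne'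
  have hfac : (K.factorial : ℚ) ≠ 0 := by exact_mod_cast K.factorial_ne_zero
  have hNz : ∀ e, 1 ≤ e → e ≤ M → ∑ j, lam j * Ni j e = 0 := by
    intro e h1 h2
    have h3 : ((∑ j, lam j * Ni j e : ℤ) : ℚ) =
        K.factorial * ∑ j, (lam j : ℚ) * nf ℚ D (n j) (tail D (ν j)) e := by
      push_cast
      rw [mul_sum]
      refine sum_congr rfl (fun j _ => ?_)
      rw [(hint j ℚ hQ).1 e]
      ring
    rw [hlz e h1 h2, mul_zero] at h3
    exact_mod_cast h3
  refine ⟨∑ j, lam j * Yi j, ?_, ?_⟩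
  · intro h
    have h3 : ((∑ j, lam j * Yi j : ℤ) : ℚ) =
        (K.factorial : ℚ) ^ 2 * ∑ j, (lam j : ℚ) * yf ℚ M D (n j) (tail D (ν j)) := by
      push_cast
      rw [mul_sum]
      refine sum_congr rfl (fun j _ => ?_)
      rw [(hint j ℚ hQ).2]
      ring
    rw [h] at h3
    exact mul_ne_zero (pow_ne_zero 2 hfac) hX (by simpa using h3.symm)
  · intro F _ φ q W r hF hq hrec hφ
    have hrel : ∀ j, ∑ e ∈ Icc 1 M, nf F D (n j) (tail D (ν j)) e * q e +
        yf F M D (n j) (tail D (ν j)) = 0 := by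
      intro j
      refine hR F K M D (n j) φ q W r (ν j) hdv hD0 (by have := (hn j).1; omega) (hn j).2.1 hF hq
        hrec (fun e s h => hφ _ ?_) (hν2 j) (hν3 j)
      have h1 : (e, s) ∈ shape M D (n j) A := by
        by_contra h2
        exact h (hν1 j e s h2)
      exact (mem_filter.1 h1).2.2
    have h1 : ∀ j, ((Yi j : ℤ) : F) =
        -(K.factorial : F) * ∑ e ∈ Icc 1 M, (Ni j e : F) * q e := by
      intro j
      rw [(hint j F hF).2, eq_neg_of_add_eq_zero_right (hrel j), mul_neg, mul_sum, neg_mul, mul_sum]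
      congr 1
      refine sum_congr rfl (fun e _ => ?_)
      rw [(hint j F hF).1 e]
      ring
    have h2 : ((∑ j, lam j * Yi j : ℤ) : F) =
        -(K.factorial : F) * ∑ e ∈ Icc 1 M, ((∑ j, lam j * Ni j e : ℤ) : F) * q e := by
      push_cast
      simp only [h1, mul_sum, sum_mul]
      rw [sum_comm]
      refine sum_congr rfl (fun e _ => sum_congr rfl (fun j _ => ?_))
      ring
    rw [h2, sum_eq_zero, mul_zero]
    intro e he
    rw [hNz e (mem_Icc.1 he).1 (mem_Icc.1 he).2]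
    simp

end Pool.Agent.MP_0c16b3_nt.L
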