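import Pool.Agent.MP_0c16b3_nt.L.Spec

/-! A set of large harmonic sum contains a long geometric chain. -/

namespace Pool.Agent.MP_0c16b3_nt.L

open Finset

namespace Chain

theorem low (ρ x : ℕ) (G : Finset ℕ) (hx : 1 ≤ x) (h : ∀ y ∈ G, x ≤ y) :
    ∑ y ∈ G.filter (fun y => ¬ ρ * x ≤ y), ((y : ℝ))⁻¹ ≤ ρ := by
  have hx' : (0 : ℝ) < x := by exact_mod_cast hx
  have h1 : (G.filter (fun y => ¬ ρ * x ≤ y)).card ≤ ρ * x := by
    refine (card_le_card (t := range (ρ * x)) fun y hy => ?_).trans (card_range _).le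
    exact mem_range.2 (not_le.1 (mem_filter.1 hy).2)
  refine (sum_le_card_nsmul _ _ ((x : ℝ))⁻¹ fun y hy => ?_).trans ?_
  · exact inv_anti₀ hx' (by exact_mod_cast h y (mem_filter.1 hy).1)
  · rw [nsmul_eq_mul, ← div_eq_mul_inv, div_le_iff₀ hx']
    exact_mod_cast h1

end Chain

theorem chain : ChainS := by
  intro ρ m G _ hG
  induction m generalizing G with
  | zero =>
    rcases G.eq_empty_or_nonempty with rfl | ⟨x, hx⟩
    · right; simp
    · exact Or.inl ⟨fun _ => x, fun _ => hx, fun i j h => absurd h (by omega)⟩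
  | succ m ih =>
    rcases G.eq_empty_or_nonempty with rfl | hne
    · right; rw [sum_empty]; positivity
    have hx := G.min'_mem hne
    rcases ih (G.filter (fun y => ρ * G.min' hne ≤ y)) (fun y hy => hG y (mem_filter.1 hy).1) with
      ⟨n, hn, hc⟩ | h
    · refine Or.inl ⟨Fin.cons (G.min' hne) n, fun j => ?_, fun i j => ?_⟩
      · refine Fin.cases ?_ (fun j => ?_) j
        · simpa using hx
        · simpa using (mem_filter.1 (hn j)).1
      · refine Fin.cases ?_ (fun j => ?_) j
        · intro h; exact absurd h (Fin.not_lt_zero i)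
        · refine Fin.cases ?_ (fun i => ?_) i
          · intro _; simpa using (mem_filter.1 (hn j)).2
          · intro h; simpa using hc i j (Fin.succ_lt_succ_iff.1 h)
    · right
      rw [← sum_filter_add_sum_filter_not G (fun y => ρ * G.min' hne ≤ y)]
      have := Chain.low ρ (G.min' hne) G (hG _ hx) fun y hy => G.min'_le y hy
      push_cast
      linarith

end Pool.Agent.MP_0c16b3_nt.L
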