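import Pool.Agent.MP_0c16b3_nt.L.Spec

/-! A prime that occurs in one harmonic number only divides its coefficient. -/

namespace Pool.Agent.MP_0c16b3_nt.L

open Finset

namespace Hv

variable {l : ℕ} [Fact l.Prime]

theorem add_le {a b : ℚ} (ha : padicNorm l a ≤ 1) (hb : padicNorm l b ≤ 1) :
    padicNorm l (a + b) ≤ 1 :=
  padicNorm.nonarchimedean.trans (max_le ha hb)

theorem mul_le {a b : ℚ} (ha : padicNorm l a ≤ 1) (hb : padicNorm l b ≤ 1) :
    padicNorm l (a * b) ≤ 1 := by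
  rw [padicNorm.mul]
  exact mul_le_one₀ ha (padicNorm.nonneg _) hb

theorem sum_le {ι : Type} (s : Finset ι) (f : ι → ℚ) (h : ∀ i ∈ s, padicNorm l (f i) ≤ 1) :
    padicNorm l (∑ i ∈ s, f i) ≤ 1 :=
  padicNorm.sum_le' h zero_le_one

theorem inv_le {i : ℕ} (h : i = 0 ∨ ¬ l ∣ i) : padicNorm l ((i : ℚ))⁻¹ ≤ 1 := by
  rcases h with rfl | h
  · simp
  · rw [← one_div, padicNorm.div, (padicNorm.nat_eq_one_iff i).2 h]
    simp

omit [Fact l.Prime] in
theorem not_dvd {i : ℕ} (h1 : i ≠ l) (h2 : i < 2 * l) : i = 0 ∨ ¬ l ∣ i := by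
  by_contra h
  push Not at h
  obtain ⟨h0, c, rfl⟩ := h
  have : c < 2 := by
    by_contra k
    push Not at k
    nlinarith [Nat.mul_le_mul_left l k]
  interval_cases c <;> simp_all

end Hv

theorem hv : HvS := by
  classical
  intro ι s β x i0 γ l hl h0 hs h1 h2 h
  have : Fact l.Prime := ⟨hl⟩
  have e : hz ℚ (x i0) = ((l : ℚ))⁻¹ + ∑ i ∈ (range (x i0)).erase l, ((i : ℚ))⁻¹ :=
    (add_sum_erase _ (fun i : ℕ => ((i : ℚ))⁻¹) (mem_range.2 h1)).symm
  rw [← add_sum_erase _ _ h0, e] at h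
  have a : padicNorm l (∑ i ∈ (range (x i0)).erase l, ((i : ℚ))⁻¹) ≤ 1 :=
    Hv.sum_le _ _ (fun i hi => Hv.inv_le (Hv.not_dvd (mem_erase.1 hi).1
      (lt_of_lt_of_le (mem_range.1 (mem_erase.1 hi).2) h2)))
  have b : padicNorm l (∑ i ∈ s.erase i0, (β i : ℚ) * hz ℚ (x i)) ≤ 1 := by
    refine Hv.sum_le _ _ (fun i hi => ?_)
    by_cases k : β i = 0
    · simp [k]
    · have := hs i (mem_erase.1 hi).2 (mem_erase.1 hi).1 k
      refine Hv.mul_le (padicNorm.of_int _) (Hv.sum_le _ _ (fun j hj => Hv.inv_le ?_))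
      have := mem_range.1 hj
      exact Hv.not_dvd (by omega) (by omega)
  have c := Hv.add_le (Hv.add_le (Hv.mul_le (padicNorm.of_int (p := l) (β i0)) a) b)
    (padicNorm.of_int (p := l) γ)
  have l0 : (l : ℚ) ≠ 0 := by exact_mod_cast hl.ne_zero
  have d : (β i0 : ℚ) = -((l : ℚ) * ((β i0 : ℚ) * ∑ i ∈ (range (x i0)).erase l, ((i : ℚ))⁻¹ +
      ∑ i ∈ s.erase i0, (β i : ℚ) * hz ℚ (x i) + γ)) := by
    have : (l : ℚ) * ((l : ℚ))⁻¹ = 1 := mul_inv_cancel₀ l0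
    linear_combination (l : ℚ) * h - (β i0 : ℚ) * this
  rw [← padicNorm.int_lt_one_iff, d, padicNorm.neg, padicNorm.mul]
  exact mul_lt_one_of_nonneg_of_lt_one_left (padicNorm.nonneg _) padicNorm.padicNorm_p_lt_one_of_prime c

end Pool.Agent.MP_0c16b3_nt.L
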