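import Pool.Agent.MP_0c16b3_nt.L.Spec

/-! Clearing the denominators. -/

namespace Pool.Agent.MP_0c16b3_nt.L

open Finset

namespace IntL

theorem cast (F : Type) [Field F] {K i : ℕ} (hF : ∀ i : ℕ, 0 < i → i ≤ K → (i : F) ≠ 0)
    (hi : i ≤ K) : ((K.factorial / i : ℕ) : F) = (K.factorial : F) * ((i : F))⁻¹ := by
  rcases Nat.eq_zero_or_pos i with rfl | h0
  · simp
  · rw [Nat.cast_div (Nat.dvd_factorial h0 hi) (hF i h0 hi), div_eq_mul_inv]

theorem le {K D n e u : ℕ} (h : D * (n + 1) ≤ K) (hu : u ∈ Ico 1 (D / e)) :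
    D / e * n + u ≤ K := by
  have h1 := (mem_Ico.1 hu).2
  have h2 : D / e * (n + 1) ≤ D * (n + 1) := Nat.mul_le_mul_right _ (Nat.div_le_self D e)
  rw [mul_add, mul_one] at h2
  omega

end IntL

theorem intS : IntS := by
  intro K M D n T h
  refine ⟨fun e => ∑ u ∈ Ico 1 (D / e), T e u * ((K.factorial / (D / e * n + u) : ℕ) : ℤ),
    ∑ e ∈ Icc 1 M, ∑ u ∈ Ico 1 (D / e), T e u * ((K.factorial / (D / e * n + u) : ℕ) : ℤ) *
      ∑ i ∈ range (D / e * n + u), ((K.factorial / i : ℕ) : ℤ), fun F _ hF => ⟨fun e => ?_, ?_⟩⟩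
  · rw [nf, mul_sum, Int.cast_sum]
    refine sum_congr rfl fun u hu => ?_
    rw [Int.cast_mul, Int.cast_natCast, IntL.cast F hF (IntL.le h hu)]
    ring
  · rw [yf, mul_sum, Int.cast_sum]
    refine sum_congr rfl fun e _ => ?_
    rw [mul_sum, Int.cast_sum]
    refine sum_congr rfl fun u hu => ?_
    have k := IntL.le h hu
    have e1 : ((∑ i ∈ range (D / e * n + u), ((K.factorial / i : ℕ) : ℤ) : ℤ) : F) =
        (K.factorial : F) * hz F (D / e * n + u) := by
      rw [hz, mul_sum, Int.cast_sum]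
      refine sum_congr rfl fun i hi => ?_
      rw [Int.cast_natCast, IntL.cast F hF ((mem_range.1 hi).le.trans k)]
    rw [Int.cast_mul, Int.cast_mul, e1, Int.cast_natCast, IntL.cast F hF k]
    ring

end Pool.Agent.MP_0c16b3_nt.L
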