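import Pool.Agent.MP_0c16b3_nt.L.Spec

/-! Row Lin: integer coefficients on a shape, with bounded tails. -/

namespace Pool.Agent.MP_0c16b3_nt.L

open Finset

namespace Lin

/-- extension by zero -/
def ex (I : Finset (ℕ × ℕ)) : (I → ℤ) →ₗ[ℤ] (ℕ → ℕ → ℤ) where
  toFun t e s := if h : (e, s) ∈ I then t ⟨(e, s), h⟩ else 0
  map_add' t t' := by
    funext e s
    by_cases h : (e, s) ∈ I <;> simp [h]
  map_smul' c t := by
    funext e s
    by_cases h : (e, s) ∈ I <;> simp [h]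

/-- the linear conditions -/
def cond (M D : ℕ) : (ℕ → ℕ → ℤ) →ₗ[ℤ] ((Icc 1 M → ℤ) × (Ico 1 D → ℤ)) where
  toFun ν := (fun e => ∑ s ∈ range (D / e), ν e s,
    fun t => ∑ e ∈ (Icc 1 M).filter (· ∣ (t : ℕ)), (e : ℤ) * tail D ν e (t / e))
  map_add' ν ν' := by
    refine Prod.ext (funext fun e => ?_) (funext fun t => ?_)
    · simp [sum_add_distrib]
    · simp [tail, sum_add_distrib, mul_add]
  map_smul' c ν := by
    refine Prod.ext (funext fun e => ?_) (funext fun t => ?_)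
    · simp [mul_sum]
    · simp [tail, mul_sum, mul_left_comm]

theorem one (M D : ℕ) (hM : 0 < M) (hMD : M ≤ D) (I : Finset (ℕ × ℕ)) : ∃ B : ℕ,
    (∀ x ∈ I, 1 ≤ x.1 ∧ x.1 ≤ M ∧ x.2 < D / x.1) → 2 * D ≤ I.card →
    ∃ ν : ℕ → ℕ → ℤ, (∀ e s, (e, s) ∉ I → ν e s = 0) ∧
      (∀ e, ∑ s ∈ range (D / e), ν e s = 0) ∧
      (∀ t, 0 < t → t < D →
        ∑ e ∈ (Icc 1 M).filter (· ∣ t), (e : ℤ) * tail D ν e (t / e) = 0) ∧
      (∀ e u, |tail D ν e u| ≤ B) ∧
      ∃ e u, 1 ≤ e ∧ e ≤ M ∧ 1 ≤ u ∧ u < D / e ∧ tail D ν e u ≠ 0 := by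
  classical
  by_cases hc : 2 * D ≤ I.card
  swap
  · exact ⟨0, fun _ h => absurd h hc⟩
  have hni : ¬ Function.Injective ((cond M D).comp (ex I)) := fun h => by
    have := LinearMap.finrank_le_finrank_of_injective h
    simp at this
    omega
  rw [injective_iff_map_eq_zero] at hni
  push Not at hni
  obtain ⟨t, ht, ht0⟩ := hni
  set ν := ex I t with hν
  have hz : ∀ e s, (e, s) ∉ I → ν e s = 0 := fun e s h => dif_neg h
  refine ⟨∑ e ∈ range (M + 1), ∑ s ∈ range D, (ν e s).natAbs, fun hI _ => ?_⟩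
  have hz' : ∀ e s, ν e s ≠ 0 → 1 ≤ e ∧ e ≤ M ∧ s < D / e := fun e s h =>
    hI (e, s) (by_contra fun h' => h (hz e s h'))
  have h1 : ∀ e, ∑ s ∈ range (D / e), ν e s = 0 := fun e => by
    by_cases he : e ∈ Icc 1 M
    · exact congrFun (congrArg Prod.fst ht) ⟨e, he⟩
    · refine sum_eq_zero fun s _ => by_contra fun h => he ?_
      exact mem_Icc.2 ⟨(hz' e s h).1, (hz' e s h).2.1⟩
  refine ⟨ν, hz, h1, fun t' h0 hD => congrFun (congrArg Prod.snd ht) ⟨t', mem_Ico.2 ⟨h0, hD⟩⟩,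
    fun e u => ?_, ?_⟩
  · refine (abs_sum_le_sum_abs _ _).trans ?_
    push_cast
    by_cases he : e ≤ M
    · refine le_trans ?_ (single_le_sum (f := fun e => ∑ s ∈ range D, |ν e s|)
        (fun e _ => sum_nonneg fun s _ => abs_nonneg _) (mem_range.2 (Nat.lt_succ_of_le he)))
      refine sum_le_sum_of_subset_of_nonneg (fun s hs => mem_range.2 ?_) fun s _ _ => abs_nonneg _
      exact (mem_Ico.1 hs).2.trans_le (Nat.div_le_self _ _)
    · refine le_trans (le_of_eq (sum_eq_zero fun s _ => ?_))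
        (sum_nonneg fun e _ => sum_nonneg fun s _ => abs_nonneg _)
      exact abs_eq_zero.2 (by_contra fun h => he (hz' e s h).2.1)
  · obtain ⟨⟨⟨e, s0⟩, hx⟩, hx0⟩ := Function.ne_iff.1 ht0
    have hs0 : ν e s0 ≠ 0 := by
      have : ν e s0 = t ⟨(e, s0), hx⟩ := dif_pos hx
      rw [this]
      exact hx0
    obtain ⟨s, hs, hmax⟩ := exists_max_image ((range (D / e)).filter fun s => ν e s ≠ 0) id
      ⟨s0, mem_filter.2 ⟨mem_range.2 (hz' e s0 hs0).2.2, hs0⟩⟩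
    obtain ⟨hs1, hs2⟩ := mem_filter.1 hs
    have ht1 : tail D ν e s = ν e s := by
      refine sum_eq_single_of_mem s (mem_Ico.2 ⟨le_rfl, mem_range.1 hs1⟩) fun r hr hne => ?_
      by_contra h
      have h2 : r ≤ s := hmax r (mem_filter.2 ⟨mem_range.2 (mem_Ico.1 hr).2, h⟩)
      have h3 := (mem_Ico.1 hr).1
      omega
    refine ⟨e, s, (hz' e s hs2).1, (hz' e s hs2).2.1, ?_, mem_range.1 hs1, ht1 ▸ hs2⟩
    by_contra h
    have h0 : s = 0 := by omega
    subst h0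
    refine hs2 (ht1.symm.trans ?_)
    rw [tail, ← range_eq_Ico]
    exact h1 e

end Lin

theorem lin : LinS := by
  intro M D hM hMD
  choose B hB using Lin.one M D hM hMD
  refine ⟨∑ I ∈ (range (M + 1) ×ˢ range D).powerset, B I, fun I hI hc => ?_⟩
  obtain ⟨ν, h1, h2, h3, h4, h5⟩ := hB I hI hc
  refine ⟨ν, h1, h2, h3, fun e u => (h4 e u).trans ?_, h5⟩
  have : I ∈ (range (M + 1) ×ˢ range D).powerset := mem_powerset.2 fun x hx =>
    mem_product.2 ⟨mem_range.2 (Nat.lt_succ_of_le (hI x hx).2.1),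
      mem_range.2 ((hI x hx).2.2.trans_le (Nat.div_le_self _ _))⟩
  exact_mod_cast single_le_sum (f := B) (fun _ _ => Nat.zero_le _) this

end Pool.Agent.MP_0c16b3_nt.L
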