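import Pool.Agent.MP_0c16b3_nt.L.Spec

namespace Pool.Agent.MP_0c16b3_nt.L

open Finset

namespace Nonv

theorem hz_split (x u : ℕ) (hu : 1 ≤ u) :
    hz ℚ (x + u) = hz ℚ (x + 1) + ∑ i ∈ Ico 1 u, (((x + i : ℕ) : ℚ))⁻¹ := by
  induction u, hu using Nat.le_induction with
  | base => simp
  | succ u hu ih =>
    rw [sum_Ico_succ_top hu, ← add_assoc, ← add_assoc, ← ih, hz, hz, sum_range_succ]

/-- The local part of the harmonic term. -/
def loc (M D n : ℕ) (T : ℕ → ℕ → ℤ) : ℚ :=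
  ∑ e ∈ Icc 1 M, ∑ u ∈ Ico 1 (D / e), (T e u : ℚ) * (((D / e * n + u : ℕ) : ℚ))⁻¹ *
    ∑ i ∈ Ico 1 u, (((D / e * n + i : ℕ) : ℚ))⁻¹

theorem yf_eq (M D n : ℕ) (T : ℕ → ℕ → ℤ) :
    yf ℚ M D n T = ∑ e ∈ Icc 1 M, nf ℚ D n T e * hz ℚ (D / e * n + 1) + loc M D n T := by
  rw [yf, loc, ← sum_add_distrib]
  refine sum_congr rfl fun e _ => ?_
  rw [nf, sum_mul, ← sum_add_distrib]
  refine sum_congr rfl fun u hu => ?_
  rw [hz_split _ _ (mem_Ico.1 hu).1, mul_add]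

theorem inv_mem {P m : ℕ} (h : m ∣ P) : (P : ℚ) * ((m : ℚ))⁻¹ ∈ (⊥ : Subring ℚ) := by
  obtain ⟨k, rfl⟩ := h
  rcases Nat.eq_zero_or_pos m with rfl | hm
  · simp
  · have : (m : ℚ) ≠ 0 := by positivity
    have h2 : ((m * k : ℕ) : ℚ) * ((m : ℚ))⁻¹ = k := by push_cast; field_simp
    rw [h2]
    exact natCast_mem _ k

theorem nf_mem {D n P e : ℕ} (T : ℕ → ℕ → ℤ) (he : 0 < e) (hd : e ∣ D) (hP : den D n ∣ P) :
    (P : ℚ) * nf ℚ D n T e ∈ (⊥ : Subring ℚ) := by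
  rw [nf, mul_sum]
  refine sum_mem fun u hu => ?_
  rw [mul_left_comm]
  exact mul_mem (intCast_mem _ _)
    (inv_mem ((dvd_den n he hd (mem_Ico.1 hu).1 (mem_Ico.1 hu).2).trans hP))

theorem loc_mem {M D n P : ℕ} (T : ℕ → ℕ → ℤ) (hd : ∀ e, 1 ≤ e → e ≤ M → e ∣ D)
    (hP : den D n ∣ P) : (P : ℚ) ^ 2 * loc M D n T ∈ (⊥ : Subring ℚ) := by
  rw [loc, mul_sum]
  refine sum_mem fun e he => ?_
  obtain ⟨h1, h2⟩ := mem_Icc.1 he
  rw [mul_sum]
  refine sum_mem fun u hu => ?_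
  obtain ⟨h3, h4⟩ := mem_Ico.1 hu
  have : (P : ℚ) ^ 2 * ((T e u : ℚ) * (((D / e * n + u : ℕ) : ℚ))⁻¹ *
      ∑ i ∈ Ico 1 u, (((D / e * n + i : ℕ) : ℚ))⁻¹) =
      (T e u : ℚ) * ((P : ℚ) * (((D / e * n + u : ℕ) : ℚ))⁻¹) *
      ∑ i ∈ Ico 1 u, (P : ℚ) * (((D / e * n + i : ℕ) : ℚ))⁻¹ := by
    rw [← mul_sum]; ring
  rw [this]
  refine mul_mem (mul_mem (intCast_mem _ _) (inv_mem ((dvd_den n h1 (hd e h1 h2) h3 h4).trans hP)))
    (sum_mem fun i hi => inv_mem ((dvd_den n h1 (hd e h1 h2) (mem_Ico.1 hi).1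
      ((mem_Ico.1 hi).2.trans h4)).trans hP))

theorem nf_abs {D n B e : ℕ} (T : ℕ → ℕ → ℤ) (hT : ∀ e u, |T e u| ≤ B) :
    |nf ℚ D n T e| ≤ (D * B : ℕ) := by
  refine (abs_sum_le_sum_abs _ _).trans ((sum_le_card_nsmul _ _ (B : ℚ) fun u hu => ?_).trans ?_)
  · have h1 : (1 : ℚ) ≤ ((D / e * n + u : ℕ) : ℚ) := by
      exact_mod_cast le_add_left (mem_Ico.1 hu).1
    have h2 : |(T e u : ℚ)| ≤ B := by exact_mod_cast hT e u
    rw [abs_mul, abs_of_nonneg (a := (((D / e * n + u : ℕ) : ℚ))⁻¹) (by positivity)]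
    exact (mul_le_of_le_one_right (abs_nonneg _) (inv_le_one_of_one_le₀ h1)).trans h2
  · rw [nsmul_eq_mul, Nat.card_Ico, Nat.cast_mul]
    refine mul_le_mul_of_nonneg_right ?_ (by positivity)
    exact_mod_cast (Nat.sub_le _ _).trans (Nat.div_le_self _ _)

end Nonv

open Nonv in
theorem nonv (hZ : NzS) (hH : HvS) (hP : PrimS) : NonvS := by
  intro M D B C hD hdiv
  obtain ⟨n1, hn1⟩ := hP D
  refine ⟨4 * (2 * (D * (M + 1)) + C + D * B) + 1, max n1 (B * D ^ D + 1), ?_⟩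
  intro K n T lam hK hn hn1' hC hsep hT hex hlam hl h0
  set P := ∏ j, den D (n j) with hPdef
  have hP0 : 0 < P := prod_pos fun j _ => den_pos _ _
  have hPd : ∀ j, den D (n j) ∣ P := fun j => dvd_prod_of_mem _ (mem_univ j)
  have hPle : P ≤ K ^ (D * (M + 1)) := by
    refine (prod_le_pow_card _ _ (K ^ D) fun j _ => den_le (by omega) (hn j)).trans ?_
    rw [card_univ, Fintype.card_fin, ← pow_mul]
  have hb : ∀ i : Fin (M + 1) × ℕ, ∃ z : ℤ, i.2 ∈ Icc 1 M →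
      (z : ℚ) = (P : ℚ) ^ 2 * lam i.1 * nf ℚ D (n i.1) (T i.1) i.2 := by
    intro i
    by_cases hi : i.2 ∈ Icc 1 M
    · obtain ⟨h1, h2⟩ := mem_Icc.1 hi
      obtain ⟨z, hz⟩ := Subring.mem_bot.1 (nf_mem (T i.1) h1 (hdiv _ h1 h2) (hPd i.1))
      exact ⟨P * lam i.1 * z, fun _ => by push_cast; rw [hz]; ring⟩
    · exact ⟨0, fun h => absurd h hi⟩
  choose β hβ using hb
  obtain ⟨γ, hγ⟩ := Subring.mem_bot.1 (sum_mem (t := univ) fun j _ =>
    mul_mem (intCast_mem (⊥ : Subring ℚ) (lam j)) (loc_mem (T j) hdiv (hPd j)))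
  have hsum : ∑ i ∈ (univ : Finset (Fin (M + 1))) ×ˢ Icc 1 M,
      (β i : ℚ) * hz ℚ (D / i.2 * n i.1 + 1) + γ = 0 := by
    rw [← mul_zero ((P : ℚ) ^ 2), ← h0, hγ, sum_product, ← sum_add_distrib, mul_sum]
    refine sum_congr rfl fun j _ => ?_
    rw [yf_eq, sum_congr rfl fun e he => by rw [hβ (j, e) he], mul_add, mul_add, mul_sum, mul_sum]
    congr 1
    · exact sum_congr rfl fun e _ => by ring
    · ring
  obtain ⟨j0, hj0, hmax⟩ := exists_max_image (univ.filter fun j => lam j ≠ 0) id (by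
    obtain ⟨j, hj⟩ := Function.ne_iff.1 hlam
    exact ⟨j, mem_filter.2 ⟨mem_univ _, hj⟩⟩)
  replace hj0 := (mem_filter.1 hj0).2
  have hex0 : ∃ e, e ∈ Icc 1 M ∧ nf ℚ D (n j0) (T j0) e ≠ 0 := by
    obtain ⟨e, u, h1, h2, h3, h4, h5⟩ := hex j0
    refine ⟨e, mem_Icc.2 ⟨h1, h2⟩, hZ D B (D / e) (D / e * n j0) (T j0 e) (Nat.div_le_self _ _)
      (hT j0 e) ⟨u, h3, h4, h5⟩ ?_⟩
    have := (le_max_right _ _).trans (hn1' j0)
    have := Nat.le_mul_of_pos_left (n j0) (show 0 < D / e by omega)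
    omega
  classical
  obtain ⟨he0, hnf0⟩ := Nat.find_spec hex0
  have hmin : ∀ e ∈ Icc 1 M, nf ℚ D (n j0) (T j0) e ≠ 0 → Nat.find hex0 ≤ e :=
    fun e h1 h2 => Nat.find_min' hex0 ⟨h1, h2⟩
  generalize Nat.find hex0 = e0 at he0 hnf0 hmin
  obtain ⟨he1, he2⟩ := mem_Icc.1 he0
  have hc0 : 1 ≤ D / e0 := Nat.div_pos (Nat.le_of_dvd hD (hdiv _ he1 he2)) he1
  have hβ0 : β (j0, e0) ≠ 0 := by
    intro h
    have := hβ (j0, e0) he0
    rw [h, Int.cast_zero] at this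
    exact mul_ne_zero (mul_ne_zero (by positivity) (by exact_mod_cast hj0)) hnf0 this.symm
  have hnc : n j0 ≤ D / e0 * n j0 := Nat.le_mul_of_pos_left _ hc0
  have hexp := hn1 (n j0) (D / e0) ((le_max_left _ _).trans (hn1' j0)) hc0 (Nat.div_le_self _ _)
    (β (j0, e0)) hβ0 fun l hl1 hl2 hl3 => by
      refine hH _ (univ ×ˢ Icc 1 M) β (fun i => D / i.2 * n i.1 + 1) (j0, e0) γ l hl1
        (mem_product.2 ⟨mem_univ _, he0⟩) ?_ (by dsimp only; omega) (by dsimp only; omega) hsum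
      rintro ⟨j, e⟩ hi hne hbi
      have he : e ∈ Icc 1 M := (mem_product.1 hi).2
      have hq : (β (j, e) : ℚ) ≠ 0 := by exact_mod_cast hbi
      rw [hβ (j, e) he] at hq
      have hlj : lam j ≠ 0 := by exact_mod_cast right_ne_zero_of_mul (left_ne_zero_of_mul hq)
      dsimp only
      rcases (show j ≤ j0 from hmax j (mem_filter.2 ⟨mem_univ _, hlj⟩)).lt_or_eq with h | rfl
      · have h1 := hsep j j0 h
        have h2 : D / e * n j ≤ D * n j := Nat.mul_le_mul_right _ (Nat.div_le_self _ _)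
        rw [mul_assoc] at h1
        omega
      · have h1 : e0 < e := lt_of_le_of_ne (hmin e he (right_ne_zero_of_mul hq))
          fun h => hne (by rw [h])
        have h2 : D / e < D / e0 := (Nat.div_lt_div_left hD.ne'
          (hdiv _ (mem_Icc.1 he).1 (mem_Icc.1 he).2) (hdiv _ he1 he2)).2 h1
        have h3 : (D / e + 1) * n j ≤ D / e0 * n j := Nat.mul_le_mul_right _ h2
        rw [add_mul, one_mul] at h3
        omega
  have hbd : |(β (j0, e0) : ℚ)| ≤ (K : ℚ) ^ (2 * (D * (M + 1)) + C + D * B) := by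
    rw [hβ (j0, e0) he0, abs_mul, abs_mul, pow_add, pow_add, abs_of_nonneg (by positivity),
      mul_comm 2, pow_mul]
    have h1 : (P : ℚ) ≤ (K : ℚ) ^ (D * (M + 1)) := by exact_mod_cast hPle
    have h2 : |(lam j0 : ℚ)| ≤ (K : ℚ) ^ C := by exact_mod_cast hl j0
    have h3 : ((D * B : ℕ) : ℚ) ≤ (K : ℚ) ^ (D * B) := by
      exact_mod_cast (Nat.lt_pow_self (by omega)).le
    have h4 := (nf_abs (D := D) (n := n j0) (e := e0) (T j0) (hT j0)).trans h3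
    gcongr
  have hbr : |(β (j0, e0) : ℝ)| ≤ (K : ℝ) ^ (2 * (D * (M + 1)) + C + D * B) := by
    exact_mod_cast hbd
  have hK1 : (1 : ℝ) < K := by exact_mod_cast hK
  have hlog := Real.log_pos hK1
  have h5 := Real.log_le_log (Real.exp_pos _) (hexp.trans hbr)
  rw [Real.log_exp, Real.log_pow] at h5
  have h6 := hC j0
  rw [Nat.cast_add, Nat.cast_mul, Nat.cast_one, Nat.cast_ofNat] at h6
  nlinarith

end Pool.Agent.MP_0c16b3_nt.L
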