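import Pool.Agent.MP_0c16b3_nt.L.Spec

/-! A sum of simple fractions with small coefficients does not vanish at a large argument. -/

namespace Pool.Agent.MP_0c16b3_nt.L

open Finset

theorem nz : NzS := by
  intro D B c x T hc hT hu hx h0
  obtain ⟨u, h1, h2, h3⟩ := hu
  have hmem : u ∈ Ico 1 c := mem_Ico.2 ⟨h1, h2⟩
  have e1 : ∑ v ∈ Ico 1 c, T v * ∏ s ∈ (Ico 1 c).erase v, ((x : ℤ) + s) = 0 := by
    have h4 : ((∑ v ∈ Ico 1 c, T v * ∏ s ∈ (Ico 1 c).erase v, ((x : ℤ) + s) : ℤ) : ℚ) =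
        (∑ v ∈ Ico 1 c, (T v : ℚ) * (((x + v : ℕ) : ℚ))⁻¹) * ∏ s ∈ Ico 1 c, ((x : ℚ) + s) := by
      push_cast
      rw [sum_mul]
      refine sum_congr rfl fun v hv => ?_
      have h5 : (1 : ℚ) ≤ v := by exact_mod_cast (mem_Ico.1 hv).1
      have h6 : (x : ℚ) + v ≠ 0 := by positivity
      rw [← mul_prod_erase _ _ hv, mul_assoc, inv_mul_cancel_left₀ h6]
    rw [h0, zero_mul] at h4
    exact_mod_cast h4
  have e2 : ((x : ℤ) + u) ∣ T u * ∏ s ∈ (Ico 1 c).erase u, ((x : ℤ) + s) := by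
    rw [← add_sum_erase _ _ hmem, add_eq_zero_iff_eq_neg] at e1
    rw [e1, dvd_neg]
    refine dvd_sum fun v hv => Dvd.dvd.mul_left (dvd_prod_of_mem _ ?_) _
    exact mem_erase.2 ⟨(mem_erase.1 hv).1.symm, hmem⟩
  have e3 : ∏ s ∈ (Ico 1 c).erase u, ((x : ℤ) + s) ≡ ∏ s ∈ (Ico 1 c).erase u, ((s : ℤ) - u)
      [ZMOD ((x : ℤ) + u)] :=
    Int.ModEq.prod fun s _ => (Int.modEq_iff_dvd.2 ⟨-1, by ring⟩)
  have e4 : ((x : ℤ) + u) ∣ T u * ∏ s ∈ (Ico 1 c).erase u, ((s : ℤ) - u) :=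
    Int.modEq_zero_iff_dvd.1 ((e3.mul_left (T u)).symm.trans (Int.modEq_zero_iff_dvd.2 e2))
  have e5 : T u * ∏ s ∈ (Ico 1 c).erase u, ((s : ℤ) - u) ≠ 0 :=
    mul_ne_zero h3 (prod_ne_zero_iff.2 fun s hs =>
      sub_ne_zero.2 (by exact_mod_cast (mem_erase.1 hs).1))
  have e6 := Int.le_of_dvd (abs_pos.2 e5) ((dvd_abs _ _).2 e4)
  have hD : (1 : ℤ) ≤ D := by exact_mod_cast (by omega : 1 ≤ D)
  have e7 : |∏ s ∈ (Ico 1 c).erase u, ((s : ℤ) - u)| ≤ (D : ℤ) ^ D := by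
    rw [abs_prod]
    calc ∏ s ∈ (Ico 1 c).erase u, |(s : ℤ) - u| ≤ ∏ _s ∈ (Ico 1 c).erase u, (D : ℤ) :=
          prod_le_prod (fun s _ => abs_nonneg _) fun s hs => by
            have := mem_Ico.1 (mem_erase.1 hs).2
            rw [abs_le]
            omega
      _ = (D : ℤ) ^ ((Ico 1 c).erase u).card := prod_const _
      _ ≤ (D : ℤ) ^ D := pow_le_pow_right₀ hD (by
          have := card_erase_le (s := Ico 1 c) (a := u)
          rw [Nat.card_Ico] at this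
          omega)
  have e8 : |T u * ∏ s ∈ (Ico 1 c).erase u, ((s : ℤ) - u)| ≤ (B : ℤ) * (D : ℤ) ^ D := by
    rw [abs_mul]
    exact mul_le_mul (hT u) e7 (abs_nonneg _) (Nat.cast_nonneg _)
  have e9 : (B : ℤ) * (D : ℤ) ^ D < x := by exact_mod_cast hx
  have e10 : (0 : ℤ) ≤ u := Nat.cast_nonneg _
  linarith

end Pool.Agent.MP_0c16b3_nt.L
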