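import Pool.Agent.MP_0c16b3_nt.L.Spec
import Pool.Agent.MP_39a890_nt.PNT

/-! An integer divisible by all primes of a long interval is large. -/

namespace Pool.Agent.MP_0c16b3_nt.L

open Finset

namespace Prim

open Filter Chebyshev

theorem th {δ : ℝ} (hδ : 0 < δ) :
    ∃ x0 : ℝ, ∀ x, x0 ≤ x → (1 - δ) * x ≤ theta x ∧ theta x ≤ (1 + δ) * x := by
  obtain ⟨C, hC⟩ := psi_sub_theta_le_mul_sqrt
  have h := Pool.Agent.MP_39a890_nt.pnt
  refine eventually_atTop.1 ?_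
  filter_upwards [h.eventually (gt_mem_nhds (by linarith : (1 : ℝ) < 1 + δ)),
    h.eventually (lt_mem_nhds (by linarith : 1 - δ / 2 < (1 : ℝ))), eventually_gt_atTop 0,
    Real.tendsto_sqrt_atTop.eventually_ge_atTop (2 * C / δ)] with x h1 h2 h3 h4
  rw [div_lt_iff₀ h3] at h1
  rw [lt_div_iff₀ h3] at h2
  rw [div_le_iff₀ hδ] at h4
  have h5 := mul_le_mul_of_nonneg_right h4 (Real.sqrt_nonneg x)
  have h6 : √x * δ * √x = δ * x := by
    rw [mul_right_comm, Real.mul_self_sqrt h3.le, mul_comm]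
  have h7 := hC x
  have h8 := theta_le_psi x
  constructor <;> linarith

theorem diff {a b : ℕ} (h : a ≤ b) :
    theta b - theta a = Real.log ((∏ p ∈ (Ioc a b).filter Nat.Prime, p : ℕ) : ℝ) := by
  rw [Nat.cast_prod, Real.log_prod fun p hp => by exact_mod_cast (mem_filter.1 hp).2.ne_zero]
  unfold theta
  rw [Nat.floor_natCast, Nat.floor_natCast, sum_filter, sum_filter, sum_filter,
    ← sum_Ioc_consecutive _ (Nat.zero_le a) h, add_sub_cancel_left]

end Prim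

theorem prim : PrimS := by
  intro D
  have hD : (0 : ℝ) < 16 * (D + 1) := by positivity
  obtain ⟨x0, hx⟩ := Prim.th (one_div_pos.2 hD)
  refine ⟨2 * ⌈x0⌉₊ + 4, fun n c hn hc hcD β hβ hl => ?_⟩
  have b1 : n ≤ c * n := Nat.le_mul_of_pos_left n hc
  have b2 : c * n ≤ D * n := Nat.mul_le_mul_right n hcD
  generalize c * n = b at hl b1 b2
  obtain ⟨a, ha⟩ : ∃ a, a = b - n / 2 := ⟨_, rfl⟩
  have hab : a ≤ b := by omega
  have h1 := (hx a ((Nat.le_ceil x0).trans (by exact_mod_cast (by omega : ⌈x0⌉₊ ≤ a)))).2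
  have h2 := (hx b ((Nat.le_ceil x0).trans (by exact_mod_cast (by omega : ⌈x0⌉₊ ≤ b)))).1
  have r1 : 2 * (a : ℝ) + n ≤ 2 * b + 1 := by exact_mod_cast (by omega : 2 * a + n ≤ 2 * b + 1)
  have r2 : (a : ℝ) ≤ b := by exact_mod_cast hab
  have r3 : (b : ℝ) ≤ D * n := by exact_mod_cast b2
  have r4 : (4 : ℝ) ≤ n := by exact_mod_cast (by omega : 4 ≤ n)
  have r5 : 1 / (16 * ((D : ℝ) + 1)) * (a + b) ≤ n / 8 := by
    rw [one_div_mul_eq_div, div_le_iff₀ hD]
    linarith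
  have h3 := Prim.diff hab
  have hP : (∏ p ∈ (Ioc a b).filter Nat.Prime, p) ∣ β.natAbs :=
    prod_primes_dvd _ (fun p hp => (mem_filter.1 hp).2.prime) fun p hp => by
      obtain ⟨p1, p2⟩ := mem_filter.1 hp
      rw [mem_Ioc] at p1
      exact Int.natCast_dvd.1 (hl p p2 (by omega) p1.2)
  have h4 := Nat.le_of_dvd (Int.natAbs_pos.2 hβ) hP
  have h5 : 0 < ∏ p ∈ (Ioc a b).filter Nat.Prime, p := prod_pos fun p hp => (mem_filter.1 hp).2.pos
  generalize (∏ p ∈ (Ioc a b).filter Nat.Prime, p) = P at h3 h4 h5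
  have h6 : (P : ℝ) ≤ |(β : ℝ)| := by
    rw [← Int.cast_abs, ← Int.natCast_natAbs]
    exact_mod_cast h4
  refine le_trans ?_ h6
  rw [← Real.le_log_iff_exp_le (by exact_mod_cast h5)]
  linarith

end Pool.Agent.MP_0c16b3_nt.L
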