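import Pool.Agent.MP_0c16b3_nt.L.Spec

/-! The linear relation obtained from one window. -/

namespace Pool.Agent.MP_0c16b3_nt.L

open Finset

namespace Rel

variable {F : Type} [Field F]

theorem tel (f : ℕ → F) (s : ℕ) : f s = f 0 + ∑ u ∈ Ico 1 (s + 1), (f u - f (u - 1)) := by
  induction s with
  | zero => simp
  | succ s ih =>
    rw [sum_Ico_succ_top (by omega), ← add_assoc, ← ih, Nat.add_sub_cancel]
    ring

theorem abel (c : ℕ) (ν f : ℕ → F) : ∑ s ∈ range c, ν s * f s =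
    (∑ s ∈ range c, ν s) * f 0 + ∑ u ∈ Ico 1 c, (∑ s ∈ Ico u c, ν s) * (f u - f (u - 1)) := by
  rw [sum_congr rfl fun s _ => congrArg (ν s * ·) (tel f s)]
  simp only [mul_add, sum_add_distrib, mul_sum, sum_mul]
  congr 1
  refine sum_comm' fun s u => ?_
  simp only [mem_range, mem_Ico]
  omega

theorem reidx (e c : ℕ) (he : 0 < e) (g : ℕ → ℕ → F) :
    ∑ u ∈ Ico 1 c, g u (e * u) = ∑ t ∈ Ico 1 (e * c), if e ∣ t then g (t / e) t else 0 := by
  rw [← sum_filter]
  refine sum_nbij' (fun u => e * u) (fun t => t / e) (fun u hu => ?_) (fun t ht => ?_)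
    (fun u _ => Nat.mul_div_cancel_left u he) (fun t ht => Nat.mul_div_cancel' (mem_filter.1 ht).2)
    fun u _ => by rw [Nat.mul_div_cancel_left u he]
  · have h := mem_Ico.1 hu
    exact mem_filter.2 ⟨mem_Ico.2 ⟨Nat.mul_pos he h.1, Nat.mul_lt_mul_of_pos_left h.2 he⟩,
      dvd_mul_right _ _⟩
  · obtain ⟨h, u, rfl⟩ := mem_filter.1 ht
    have h' := mem_Ico.1 h
    rw [Nat.mul_div_cancel_left u he]
    exact mem_Ico.2 ⟨Nat.pos_of_mul_pos_left h'.1, Nat.lt_of_mul_lt_mul_left h'.2⟩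

end Rel

theorem rel : RelS := by
  intro F _ K M D n φ q W r ν hd _ _ hK h0 hq hφ hr hs ht
  obtain ⟨G, hG⟩ : ∃ G : ℕ → F, ∀ t, G t = ((D * n + t : ℕ) : F)⁻¹ * (W - q (D * n + t)) :=
    ⟨_, fun _ => rfl⟩
  have h1 : ∀ e ∈ Icc 1 M, nf F D n (tail D ν) e * q e + ∑ u ∈ Ico 1 (D / e),
      (tail D ν e u : F) * (((D / e * n + u : ℕ) : F))⁻¹ * hz F (D / e * n + u) =
      -∑ t ∈ Ico 1 D, if e ∣ t then (((e : ℤ) * tail D ν e (t / e) : ℤ) : F) * G t else 0 := by
    intro e he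
    have he1 := mem_Icc.1 he
    obtain ⟨c, hc⟩ := hd e he1.1 he1.2
    have hc' : D / e = c := by rw [hc, Nat.mul_div_cancel_left _ he1.1]
    have a1 := Rel.abel c (fun s => (ν e s : F)) fun s => φ (c * n + s)
    have a2 : ∑ s ∈ range c, (ν e s : F) = 0 := by
      rw [← hc']
      exact_mod_cast congrArg (Int.cast : ℤ → F) (hs e)
    have a3 : ∑ s ∈ range c, (ν e s : F) * φ (c * n + s) = ∑ s ∈ range c, (ν e s : F) * r :=
      sum_congr rfl fun s _ => by
        by_cases k : ν e s = 0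
        · simp [k]
        · rw [← hc', hr e s k]
    rw [a3, ← sum_mul, a2, zero_mul, zero_mul, zero_add] at a1
    have a4 := Rel.reidx e c he1.1 fun u t => (((e : ℤ) * tail D ν e u : ℤ) : F) * G t
    rw [← hc] at a4
    rw [← a4, eq_neg_iff_add_eq_zero, nf, hc', sum_mul, ← sum_add_distrib, ← sum_add_distrib]
    refine (sum_congr rfl fun u hu => ?_).trans a1.symm
    obtain ⟨u1, u2⟩ := mem_Ico.1 hu
    obtain ⟨v, rfl⟩ : ∃ v, u = v + 1 := ⟨u - 1, by omega⟩
    have b1 : e * (c * n + (v + 1)) = D * n + e * (v + 1) := by rw [hc]; ring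
    have b2 : e * (c * n + (v + 1)) ≤ K := by
      have := Nat.mul_le_mul_left e u2.le
      rw [b1]
      rw [mul_add, mul_one] at hK
      omega
    have b3 : c * n + (v + 1) ≤ K := (Nat.le_mul_of_pos_left _ he1.1).trans b2
    have b4 := hφ (c * n + v) b3
    have b5 := h0 (c * n + (v + 1)) (by omega) b3
    have b6 := h0 e he1.1 ((Nat.le_mul_of_pos_right _ (by omega)).trans b2)
    have b7 : ∑ s ∈ Ico (v + 1) c, (ν e s : F) = (tail D ν e (v + 1) : F) := by
      rw [tail, hc', Int.cast_sum]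
    rw [add_assoc] at b4
    rw [b7, hG, ← b1, hq e _ he1.1 (by omega) b2, Nat.add_sub_cancel, Nat.cast_mul,
      (eq_inv_mul_iff_mul_eq₀ b5).2 b4, Int.cast_mul, Int.cast_natCast]
    generalize ((c * n + (v + 1) : ℕ) : F) = m at b5
    field_simp
    ring
  rw [yf, ← sum_add_distrib, sum_congr rfl h1, sum_neg_distrib, sum_comm, neg_eq_zero]
  refine sum_eq_zero fun t k => ?_
  rw [← sum_filter, ← sum_mul, ← Int.cast_sum, ht t (mem_Ico.1 k).1 (mem_Ico.1 k).2,
    Int.cast_zero, zero_mul]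

end Pool.Agent.MP_0c16b3_nt.L
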