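import Pool.Agent.MP_0c16b3_nt.L.Spec

/-! A small integer relation between the coefficient vectors (lemma of Siegel). -/

namespace Pool.Agent.MP_0c16b3_nt.L

open Finset

namespace Sieg

attribute [local instance] Matrix.seminormedAddCommGroup

theorem siegel (M H : ℕ) (hM : 0 < M) (hH : 1 ≤ H) (A : Matrix (Fin M) (Fin (M + 1)) ℤ)
    (hA : ∀ i j, |A i j| ≤ H) : ∃ t : Fin (M + 1) → ℤ, t ≠ 0 ∧ (∀ i, ∑ j, A i j * t j = 0) ∧
      ∀ j, |t j| ≤ (((M + 1) * H) ^ M : ℕ) := by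
  obtain ⟨t, h0, h1, h2⟩ := Int.Matrix.exists_ne_zero_int_vec_norm_le A (by simp) (by simpa)
  refine ⟨t, h0, fun i => congrFun h1 i, fun j => ?_⟩
  have hH' : (1 : ℝ) ≤ H := by exact_mod_cast hH
  have h3 : ‖A‖ ≤ H := by
    rw [Matrix.norm_le_iff (by linarith)]
    intro i k
    rw [Int.norm_eq_abs]
    exact_mod_cast hA i k
  have h4 : ((Fintype.card (Fin M) : ℝ) /
      ((Fintype.card (Fin (M + 1)) : ℝ) - (Fintype.card (Fin M) : ℝ))) = (M : ℝ) := by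
    simp
  rw [h4, Real.rpow_natCast] at h2
  have h5 : ‖t j‖ ≤ (((M : ℝ) + 1) * H) ^ M := by
    refine (norm_le_pi_norm t j).trans (h2.trans ?_)
    refine pow_le_pow_left₀ (by positivity) ?_ M
    have e : (Fintype.card (Fin (M + 1)) : ℝ) = M + 1 := by simp
    rw [e]
    exact mul_le_mul_of_nonneg_left (max_le hH' h3) (by positivity)
  rw [Int.norm_eq_abs] at h5
  exact_mod_cast h5

/-- the integer numerators -/
def aa (D n : ℕ) (T : ℕ → ℕ → ℤ) (e : ℕ) : ℤ :=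
  ∑ u ∈ Ico 1 (D / e), T e u * ((den D n / (D / e * n + u) : ℕ) : ℤ)

theorem aa_cast {D e : ℕ} (n : ℕ) (T : ℕ → ℕ → ℤ) (he : 0 < e) (hd : e ∣ D) :
    (aa D n T e : ℚ) = (den D n : ℚ) * nf ℚ D n T e := by
  unfold aa nf
  rw [Int.cast_sum, Finset.mul_sum]
  refine Finset.sum_congr rfl fun u hu => ?_
  obtain ⟨h1, h2⟩ := mem_Ico.1 hu
  have h3 : ((D / e * n + u : ℕ) : ℚ) ≠ 0 := by
    have : D / e * n + u ≠ 0 := by omega
    exact_mod_cast this
  rw [Int.cast_mul, Int.cast_natCast, Nat.cast_div (dvd_den n he hd h1 h2) h3, div_eq_mul_inv]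
  ring

theorem aa_le {D n K B : ℕ} (T : ℕ → ℕ → ℤ) (e : ℕ) (hK : 1 ≤ K) (h : D * (n + 1) ≤ K)
    (hT : ∀ e u, |T e u| ≤ B) : |aa D n T e| ≤ ((D * B * K ^ D : ℕ) : ℤ) := by
  unfold aa
  refine (Finset.abs_sum_le_sum_abs _ _).trans ?_
  have h1 : ∀ u ∈ Ico 1 (D / e),
      |T e u * ((den D n / (D / e * n + u) : ℕ) : ℤ)| ≤ ((B * K ^ D : ℕ) : ℤ) := by
    intro u _
    have h2 : den D n / (D / e * n + u) ≤ K ^ D := (Nat.div_le_self _ _).trans (den_le hK h)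
    rw [abs_mul, Nat.abs_cast, Nat.cast_mul B]
    exact mul_le_mul (hT e u) (by exact_mod_cast h2) (Nat.cast_nonneg _) (Nat.cast_nonneg _)
  refine (Finset.sum_le_card_nsmul _ _ _ h1).trans ?_
  have h3 : (Ico 1 (D / e)).card ≤ D := by
    rw [Nat.card_Ico]
    exact (Nat.sub_le _ _).trans (Nat.div_le_self _ _)
  rw [nsmul_eq_mul, ← Nat.cast_mul, mul_assoc]
  exact_mod_cast Nat.mul_le_mul_right _ h3

theorem le_pow {K : ℕ} (hK : 2 ≤ K) (x : ℕ) : x ≤ K ^ x :=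
  (Nat.lt_pow_self (by omega)).le

end Sieg

theorem sieg : SiegS := by
  intro M D B hM hD
  refine ⟨(M + 1 + (D * B + D)) * M + D, fun K n T hK hn hT => ?_⟩
  have hK1 : 1 ≤ K := by omega
  obtain ⟨t, h0, h1, h2⟩ := Sieg.siegel M (K ^ (D * B + D)) hM (Nat.one_le_pow _ _ hK1)
    (fun i j => Sieg.aa D (n j) (T j) (i + 1)) (fun i j => by
      refine (Sieg.aa_le (T j) _ hK1 (hn j) (hT j)).trans ?_
      rw [pow_add]
      exact_mod_cast Nat.mul_le_mul_right _ (Sieg.le_pow hK (D * B)))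
  refine ⟨fun j => t j * den D (n j), fun h => h0 (funext fun j => ?_), fun j => ?_,
    fun e he1 he2 => ?_⟩
  · have h3 : t j * den D (n j) = 0 := congrFun h j
    have h4 : (den D (n j) : ℤ) ≠ 0 := by exact_mod_cast (den_pos D (n j)).ne'
    exact (mul_eq_zero.1 h3).resolve_right h4
  · have h3 : ((M + 1) * K ^ (D * B + D)) ^ M * den D (n j) ≤
        K ^ ((M + 1 + (D * B + D)) * M + D) := by
      rw [pow_add K ((M + 1 + (D * B + D)) * M) D, pow_mul K (M + 1 + (D * B + D)) M,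
        pow_add K (M + 1)]
      exact Nat.mul_le_mul
        (Nat.pow_le_pow_left (Nat.mul_le_mul_right _ (Sieg.le_pow hK (M + 1))) M)
        (den_le hK1 (hn j))
    rw [abs_mul, Nat.abs_cast]
    refine (mul_le_mul_of_nonneg_right (h2 j) (Nat.cast_nonneg _)).trans ?_
    exact_mod_cast h3
  · obtain ⟨i, rfl⟩ : ∃ i, e = i + 1 := ⟨e - 1, by omega⟩
    have h3 := congrArg (fun z : ℤ => (z : ℚ)) (h1 ⟨i, by omega⟩)
    simp only [Int.cast_sum, Int.cast_mul, Int.cast_zero] at h3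
    rw [← h3]
    refine Finset.sum_congr rfl fun j _ => ?_
    rw [Sieg.aa_cast (n j) (T j) (by omega) (hD _ he1 he2), Int.cast_mul, Int.cast_natCast]
    ring

end Pool.Agent.MP_0c16b3_nt.L
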