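import Mathlib

/-! Fixed shifts in logarithmic density: definitions and the statements of the steps. -/

namespace Pool.Agent.MP_0c16b3_nt.L

open Finset

/-- `1 + 1/2 + ⋯ + 1/(n-1)` in a field. -/
def hz (F : Type) [Field F] (n : ℕ) : F := ∑ i ∈ range n, ((i : F))⁻¹

/-- Tail sums of the coefficients at scale `e`. -/
def tail (D : ℕ) (ν : ℕ → ℕ → ℤ) (e u : ℕ) : ℤ := ∑ s ∈ Ico u (D / e), ν e s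

/-- The coefficient of `q e`. -/
def nf (F : Type) [Field F] (D n : ℕ) (T : ℕ → ℕ → ℤ) (e : ℕ) : F :=
  ∑ u ∈ Ico 1 (D / e), (T e u : F) * (((D / e * n + u : ℕ) : F))⁻¹

/-- The harmonic term. -/
def yf (F : Type) [Field F] (M D n : ℕ) (T : ℕ → ℕ → ℤ) : F :=
  ∑ e ∈ Icc 1 M, ∑ u ∈ Ico 1 (D / e),
    (T e u : F) * (((D / e * n + u : ℕ) : F))⁻¹ * hz F (D / e * n + u)

/-- The shape of `A` in the windows at `n`. -/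
def shape (M D n : ℕ) (A : Finset ℕ) : Finset (ℕ × ℕ) :=
  (Icc 1 M ×ˢ range D).filter (fun x => x.2 < D / x.1 ∧ D / x.1 * n + x.2 ∈ A)

/-- A common denominator. -/
def den (D n : ℕ) : ℕ := ∏ t ∈ Ico 1 D, (D * n + t)

theorem den_pos (D n : ℕ) : 0 < den D n :=
  prod_pos (fun t ht => by have := (mem_Ico.1 ht).1; omega)

theorem den_le {D n K : ℕ} (hK : 1 ≤ K) (h : D * (n + 1) ≤ K) : den D n ≤ K ^ D := by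
  refine (prod_le_pow_card _ _ K (fun t ht => ?_)).trans (Nat.pow_le_pow_right hK (by simp))
  have := (mem_Ico.1 ht).2
  rw [mul_add, mul_one] at h
  omega

theorem dvd_den {D e u : ℕ} (n : ℕ) (he : 0 < e) (hd : e ∣ D) (h1 : 1 ≤ u) (h2 : u < D / e) :
    D / e * n + u ∣ den D n := by
  obtain ⟨c, rfl⟩ := hd
  rw [Nat.mul_div_cancel_left _ he] at h2 ⊢
  refine dvd_trans ⟨e, by ring⟩ (dvd_prod_of_mem (fun t => e * c * n + t) (a := e * u) ?_)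
  exact mem_Ico.2 ⟨Nat.mul_pos he h1, Nat.mul_lt_mul_of_pos_left h2 he⟩

def LinS : Prop := ∀ M D : ℕ, 0 < M → M ≤ D → ∃ B : ℕ, ∀ I : Finset (ℕ × ℕ),
  (∀ x ∈ I, 1 ≤ x.1 ∧ x.1 ≤ M ∧ x.2 < D / x.1) → 2 * D ≤ I.card →
  ∃ ν : ℕ → ℕ → ℤ, (∀ e s, (e, s) ∉ I → ν e s = 0) ∧
    (∀ e, ∑ s ∈ range (D / e), ν e s = 0) ∧
    (∀ t, 0 < t → t < D →
      ∑ e ∈ (Icc 1 M).filter (· ∣ t), (e : ℤ) * tail D ν e (t / e) = 0) ∧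
    (∀ e u, |tail D ν e u| ≤ B) ∧
    ∃ e u, 1 ≤ e ∧ e ≤ M ∧ 1 ≤ u ∧ u < D / e ∧ tail D ν e u ≠ 0

def RelS : Prop := ∀ (F : Type) [Field F] (K M D n : ℕ) (φ q : ℕ → F) (W r : F)
  (ν : ℕ → ℕ → ℤ), (∀ e, 1 ≤ e → e ≤ M → e ∣ D) → 0 < D → 1 ≤ n → D * (n + 1) ≤ K →
  (∀ i : ℕ, 0 < i → i ≤ K → (i : F) ≠ 0) →
  (∀ a b : ℕ, 0 < a → 0 < b → a * b ≤ K → q (a * b) = q a + q b) →
  (∀ k : ℕ, k + 1 ≤ K → ((k + 1 : ℕ) : F) * (φ (k + 1) - φ k) = W + hz F (k + 1) - q (k + 1)) →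
  (∀ e s, ν e s ≠ 0 → φ (D / e * n + s) = r) →
  (∀ e, ∑ s ∈ range (D / e), ν e s = 0) →
  (∀ t, 0 < t → t < D → ∑ e ∈ (Icc 1 M).filter (· ∣ t), (e : ℤ) * tail D ν e (t / e) = 0) →
  ∑ e ∈ Icc 1 M, nf F D n (tail D ν) e * q e + yf F M D n (tail D ν) = 0

def IntS : Prop := ∀ (K M D n : ℕ) (T : ℕ → ℕ → ℤ), D * (n + 1) ≤ K →
  ∃ (Ni : ℕ → ℤ) (Yi : ℤ), ∀ (F : Type) [Field F], (∀ i : ℕ, 0 < i → i ≤ K → (i : F) ≠ 0) →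
    (∀ e, (Ni e : F) = (K.factorial : F) * nf F D n T e) ∧
      (Yi : F) = (K.factorial : F) ^ 2 * yf F M D n T

def SiegS : Prop := ∀ M D B : ℕ, 0 < M → (∀ e, 1 ≤ e → e ≤ M → e ∣ D) → ∃ C : ℕ,
  ∀ (K : ℕ) (n : Fin (M + 1) → ℕ) (T : Fin (M + 1) → ℕ → ℕ → ℤ), 2 ≤ K →
    (∀ j, D * (n j + 1) ≤ K) → (∀ j e u, |T j e u| ≤ B) →
    ∃ lam : Fin (M + 1) → ℤ, lam ≠ 0 ∧ (∀ j, |lam j| ≤ (K : ℤ) ^ C) ∧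
      ∀ e, 1 ≤ e → e ≤ M → ∑ j, (lam j : ℚ) * nf ℚ D (n j) (T j) e = 0

def NzS : Prop := ∀ (D B c x : ℕ) (T : ℕ → ℤ), c ≤ D → (∀ u, |T u| ≤ B) →
  (∃ u, 1 ≤ u ∧ u < c ∧ T u ≠ 0) → B * D ^ D < x →
  ∑ u ∈ Ico 1 c, (T u : ℚ) * (((x + u : ℕ) : ℚ))⁻¹ ≠ 0

def HvS : Prop := ∀ (ι : Type) (s : Finset ι) (β : ι → ℤ) (x : ι → ℕ) (i0 : ι) (γ : ℤ) (l : ℕ),
  l.Prime → i0 ∈ s → (∀ i ∈ s, i ≠ i0 → β i ≠ 0 → x i ≤ l) → l < x i0 → x i0 ≤ 2 * l →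
  ∑ i ∈ s, (β i : ℚ) * hz ℚ (x i) + γ = 0 → (l : ℤ) ∣ β i0

def PrimS : Prop := ∀ D : ℕ, ∃ n1 : ℕ, ∀ n c : ℕ, n1 ≤ n → 1 ≤ c → c ≤ D → ∀ β : ℤ, β ≠ 0 →
  (∀ l : ℕ, l.Prime → 2 * (c * n) < 2 * l + n → l ≤ c * n → (l : ℤ) ∣ β) →
  Real.exp ((n : ℝ) / 4) ≤ |(β : ℝ)|

def NonvS : Prop := ∀ M D B C : ℕ, 0 < D → (∀ e, 1 ≤ e → e ≤ M → e ∣ D) → ∃ C' n1 : ℕ,
  ∀ (K : ℕ) (n : Fin (M + 1) → ℕ) (T : Fin (M + 1) → ℕ → ℕ → ℤ) (lam : Fin (M + 1) → ℤ), 2 ≤ K →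
    (∀ j, D * (n j + 1) ≤ K) → (∀ j, n1 ≤ n j) → (∀ j, (C' : ℝ) * Real.log K ≤ n j) →
    (∀ i j, i < j → 2 * D * n i ≤ n j) → (∀ j e u, |T j e u| ≤ B) →
    (∀ j, ∃ e u, 1 ≤ e ∧ e ≤ M ∧ 1 ≤ u ∧ u < D / e ∧ T j e u ≠ 0) →
    lam ≠ 0 → (∀ j, |lam j| ≤ (K : ℤ) ^ C) →
    ∑ j, (lam j : ℚ) * yf ℚ M D (n j) (T j) ≠ 0

def ChainS : Prop := ∀ (ρ m : ℕ) (G : Finset ℕ), 2 ≤ ρ → (∀ x ∈ G, 1 ≤ x) →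
  (∃ n : Fin (m + 1) → ℕ, (∀ j, n j ∈ G) ∧ ∀ i j, i < j → ρ * n i ≤ n j) ∨
    ∑ x ∈ G, ((x : ℝ))⁻¹ ≤ m * ρ

def AvgS : Prop := ∀ (M D K ns : ℕ) (A : Finset ℕ), 0 < D → (∀ e, 1 ≤ e → e ≤ M → e ∣ D) →
  D ≤ K → 1 ≤ ns → A ⊆ Ico 1 K →
  (∃ n : Fin (M + 1) → ℕ, (∀ j, ns ≤ n j ∧ D * (n j + 1) ≤ K ∧
      2 * D ≤ (shape M D (n j) A).card) ∧ ∀ i j, i < j → 2 * D * n i ≤ n j) ∨
    (∑ e ∈ Icc 1 M, ((e : ℝ))⁻¹) * ∑ k ∈ A, ((k : ℝ))⁻¹ ≤ 2 * (1 + Real.log K) +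
      (∑ e ∈ Icc 1 M, ((e : ℝ))⁻¹) * (Real.log ns + 1 + 2 * D * M + 3 * D)

def CertS : Prop := ∀ ε : ℝ, 0 < ε → ∃ K0 : ℕ, ∀ K : ℕ, K0 ≤ K → ∀ A : Finset ℕ, A ⊆ Ico 1 K →
  ε * Real.log K < ∑ k ∈ A, ((k : ℝ))⁻¹ → ∃ z : ℤ, z ≠ 0 ∧
    ∀ (F : Type) [Field F] (φ q : ℕ → F) (W r : F), (∀ i : ℕ, 0 < i → i ≤ K → (i : F) ≠ 0) →
      (∀ a b : ℕ, 0 < a → 0 < b → a * b ≤ K → q (a * b) = q a + q b) →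
      (∀ k : ℕ, k + 1 ≤ K →
        ((k + 1 : ℕ) : F) * (φ (k + 1) - φ k) = W + hz F (k + 1) - q (k + 1)) →
      (∀ k ∈ A, φ k = r) → (z : F) = 0

end Pool.Agent.MP_0c16b3_nt.L
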